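import Pool.Agent.H502.BN.Top

/-!
# The two-eigenvalue case of the Elphick–Linz–Wocjan conjecture (= Bollobás–Nikiforov)
-/

set_option autoImplicit false
open scoped BigOperators

namespace Pool.Agent.Results.MP_416653_co.TwoEigenvalues

open Pool.Agent.H502.BNTop

theorem elw_two {V : Type} [Fintype V] [DecidableEq V] (G : SimpleGraph V) [DecidableRel G.Adj]
    (hA : (G.adjMatrix ℝ).IsHermitian) (ω : ℕ)
    (hmax : ∀ (k : ℕ) (s : Finset V), G.IsNClique k s → k ≤ ω)
    (S : Finset V) (hS : S.card ≤ 2) (hpos : ∀ i ∈ S, 0 < hA.eigenvalues i) :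
    ∑ i ∈ S, hA.eigenvalues i ^ 2 ≤ 2 * (1 - 1 / (ω : ℝ)) * (Nat.card G.edgeSet : ℝ) := by
  rcases Nat.eq_zero_or_pos ω with h0 | h0
  · subst h0
    have hV : IsEmpty V := by
      constructor
      intro v
      have := hmax 1 {v} (by simp)
      omega
    have hS0 : S = ∅ := by
      rw [Finset.eq_empty_iff_forall_notMem]
      intro v _
      exact hV.elim v
    subst hS0
    have : (0:ℝ) ≤ (Nat.card G.edgeSet : ℝ) := Nat.cast_nonneg _
    simp
  · have hG : G.CliqueFree (ω + 1) := by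
      intro s hs
      have := hmax (ω + 1) s hs
      omega
    have h := weighted_set G ω h0 hG hA
      (fun i j => by
        rw [SimpleGraph.adjMatrix_apply]; split_ifs <;> norm_num)
      (fun i j hij => by
        rw [SimpleGraph.adjMatrix_apply, if_neg hij]) S hS hpos
    rw [sum_sq_adj] at h
    linarith

theorem result :
    -- (a) the squares of any two positive adjacency eigenvalues, for every graph
    (∀ (V : Type) [Fintype V] [DecidableEq V] (G : SimpleGraph V) [DecidableRel G.Adj]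
      (hA : (G.adjMatrix ℝ).IsHermitian) (ω : ℕ),
      (∃ s : Finset V, G.IsNClique ω s) →
      (∀ (k : ℕ) (s : Finset V), G.IsNClique k s → k ≤ ω) →
      ∀ S : Finset V, S.card ≤ 2 → (∀ i ∈ S, 0 < hA.eigenvalues i) →
        ∑ i ∈ S, hA.eigenvalues i ^ 2 ≤ 2 * (1 - 1 / (ω : ℝ)) * (Nat.card G.edgeSet : ℝ)) ∧
    -- (b) the full Elphick–Linz–Wocjan inequality whenever min(n⁺, ω) ≤ 2
    (∀ (V : Type) [Fintype V] [DecidableEq V] (G : SimpleGraph V) [DecidableRel G.Adj]
      (hA : (G.adjMatrix ℝ).IsHermitian) (ω : ℕ),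
      (∃ s : Finset V, G.IsNClique ω s) →
      (∀ (k : ℕ) (s : Finset V), G.IsNClique k s → k ≤ ω) →
      min (Finset.univ.filter fun i => 0 < hA.eigenvalues i).card ω ≤ 2 →
      ∀ S : Finset V, S.card ≤ ω → (∀ i ∈ S, 0 < hA.eigenvalues i) →
        ∑ i ∈ S, hA.eigenvalues i ^ 2 ≤ 2 * (1 - 1 / (ω : ℝ)) * (Nat.card G.edgeSet : ℝ)) ∧
    -- (c) the same for all nonnegative edge weights
    (∀ (V : Type) [Fintype V] [DecidableEq V] (G : SimpleGraph V) (r : ℕ), 1 ≤ r →
      G.CliqueFree (r + 1) →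
      ∀ (A : Matrix V V ℝ) (hA : A.IsHermitian), (∀ i j, 0 ≤ A i j) →
      (∀ i j, ¬ G.Adj i j → A i j = 0) →
      ∀ S : Finset V, S.card ≤ 2 → (∀ i ∈ S, 0 < hA.eigenvalues i) →
        ∑ i ∈ S, hA.eigenvalues i ^ 2 ≤ (1 - 1 / (r : ℝ)) * ∑ i, ∑ j, A i j ^ 2) := by
  refine ⟨?_, ?_, ?_⟩
  · intro V _ _ G _ hA ω _ hmax S hS hpos
    exact elw_two G hA ω hmax S hS hpos
  · intro V _ _ G _ hA ω _ hmax hmin S hS hpos
    refine elw_two G hA ω hmax S ?_ hpos
    have h1 : S.card ≤ (Finset.univ.filter fun i => 0 < hA.eigenvalues i).card := by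
      refine Finset.card_le_card fun i hi => ?_
      simp [hpos i hi]
    exact (le_min h1 hS).trans hmin
  · intro V _ _ G r hr hG A hA h0 hsupp S hS hpos
    classical
    exact weighted_set G r hr hG hA h0 hsupp S hS hpos

end Pool.Agent.Results.MP_416653_co.TwoEigenvalues
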